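import Pool.Agent.Helper23.XT.Ultra

/-!
Project XT (helper23), MP_c5a4e2_lc: the homogenisation of a polynomial without root in the residue
field, and suprema in the value group are attained.
-/

set_option autoImplicit false

namespace Pool.Agent.Helper95.XT

open Pool.Agent.Helper23.XT
open Filter MvPolynomial

section
variable {K Γ Γ' : Type*} [Field K] [LinearOrderedCommGroupWithZero Γ]
  [LinearOrderedCommGroupWithZero Γ'] {v : Valuation K Γ} {w : Valuation K Γ'}

/-- the homogenisation of a polynomial without root in the residue field of `w` -/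
theorem val_form {P : Polynomial K} (hP : P.Monic) (hd : 0 < P.natDegree)
    (hc : ∀ i, w (P.coeff i) ≤ 1) (hroot : ∀ x, w x ≤ 1 → w (P.eval x) = 1) (x y : K) :
    w (∑ i ∈ Finset.range (P.natDegree + 1), P.coeff i * x ^ i * y ^ (P.natDegree - i)) =
      (max (w x) (w y)) ^ P.natDegree := by
  rcases le_or_gt (w x) (w y) with h | h
  · rw [max_eq_right h]
    rcases eq_or_ne y 0 with rfl | hy
    · have hx : x = 0 := by
        rw [map_zero, le_zero_iff, Valuation.zero_iff] at h
        exact h
      subst hx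
      rw [map_zero, zero_pow hd.ne', Valuation.zero_iff]
      refine Finset.sum_eq_zero fun i hi => ?_
      rcases Nat.eq_zero_or_pos i with rfl | hi0
      · rw [Nat.sub_zero, zero_pow hd.ne', mul_zero]
      · rw [zero_pow hi0.ne', mul_zero, zero_mul]
    · have h1 : ∑ i ∈ Finset.range (P.natDegree + 1), P.coeff i * x ^ i * y ^ (P.natDegree - i) =
          y ^ P.natDegree * P.eval (x / y) := by
        rw [Polynomial.eval_eq_sum_range, Finset.mul_sum]
        refine Finset.sum_congr rfl fun i hi => ?_
        have hi' : i ≤ P.natDegree := Nat.lt_succ_iff.1 (Finset.mem_range.1 hi)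
        have h2 : y ^ P.natDegree = y ^ (P.natDegree - i) * y ^ i := by
          rw [← pow_add, Nat.sub_add_cancel hi']
        rw [h2, div_pow]
        field_simp
      have h3 : w (x / y) ≤ 1 := by
        rw [map_div₀]
        exact div_le_one_of_le₀ h zero_le
      rw [h1, map_mul, hroot _ h3, mul_one, map_pow]
  · rw [max_eq_left h.le, Finset.sum_range_succ]
    have hx : x ≠ 0 := by
      rintro rfl
      rw [map_zero] at h
      exact absurd h (not_lt.2 zero_le)
    have hwx : 0 < w x := zero_lt_iff.2 ((Valuation.ne_zero_iff w).2 hx)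
    have h1 : P.coeff P.natDegree * x ^ P.natDegree * y ^ (P.natDegree - P.natDegree) =
        x ^ P.natDegree := by
      rw [hP.coeff_natDegree, Nat.sub_self, pow_zero, one_mul, mul_one]
    have h2 : w (∑ i ∈ Finset.range P.natDegree, P.coeff i * x ^ i * y ^ (P.natDegree - i)) <
        w (x ^ P.natDegree) := by
      refine Valuation.map_sum_lt _ ?_ fun i hi => ?_
      · rw [map_pow]
        exact pow_ne_zero _ hwx.ne'
      · have hi' : i < P.natDegree := Finset.mem_range.1 hi
        rw [map_mul, map_mul, map_pow, map_pow, map_pow]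
        calc w (P.coeff i) * w x ^ i * w y ^ (P.natDegree - i)
            ≤ 1 * w x ^ i * w y ^ (P.natDegree - i) :=
              mul_le_mul' (mul_le_mul' (hc i) le_rfl) le_rfl
          _ = w x ^ i * w y ^ (P.natDegree - i) := by rw [one_mul]
          _ < w x ^ i * w x ^ (P.natDegree - i) :=
              mul_lt_mul_of_pos_left (pow_lt_pow_left₀ h zero_le (by omega)) (pow_pos hwx i)
          _ = w x ^ P.natDegree := by rw [← pow_add]; congr 1; omega
    rw [h1, Valuation.map_add_eq_of_lt_right _ h2, map_pow]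

private theorem eval_sub {n : ℕ} (f : MvPolynomial (Fin n) K)
    (q : Fin n → MvPolynomial (Option (Fin n)) K) (b : Option (Fin n) → K) :
    eval b (bind₁ q f) = eval (fun i => eval b (q i)) f := by
  have h1 : (eval b).comp (bind₁ q : MvPolynomial (Fin n) K →ₐ[K] _).toRingHom =
      eval (fun i => eval b (q i)) := by
    refine MvPolynomial.ringHom_ext (fun r => ?_) (fun i => ?_)
    · simp
    · simp
  exact congrArg (fun φ : MvPolynomial (Fin n) K →+* K => φ f) h1

/-- a supremum in the value group is attained -/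
theorem glb_mem_of_form (hv : Extremal v) (hvw : ∀ x, v x ≤ 1 → w x ≤ 1)
    (hnt : ∃ x, 1 < w x) {P : Polynomial K} (hP : P.Monic) (hd : 0 < P.natDegree)
    (hc : ∀ i, w (P.coeff i) ≤ 1) (hroot : ∀ x, w x ≤ 1 → w (P.eval x) = 1)
    {n : ℕ} (f : MvPolynomial (Fin n) K) {g : K} (hg : g ≠ 0)
    (hglb : IsGLB (Values w f) (w g)) : w g ∈ Values w f := by
  by_contra hnot
  have hlow : ∀ a : Fin n → K, (∀ i, w (a i) ≤ 1) → w g < w (eval a f) := by
    intro a ha
    refine lt_of_le_of_ne (hglb.1 ⟨a, ha, rfl⟩) fun h => hnot ⟨a, ha, h.symm⟩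
  have hwg : 0 < w g := zero_lt_iff.2 ((Valuation.ne_zero_iff w).2 hg)
  obtain ⟨x0, hx0⟩ := hnt
  have hx00 : x0 ≠ 0 := by
    rintro rfl
    rw [map_zero] at hx0
    exact absurd hx0 (not_lt.2 zero_le)
  obtain ⟨e, he0, he1⟩ : ∃ e : K, e ≠ 0 ∧ w e < 1 := by
    refine ⟨x0⁻¹, inv_ne_zero hx00, ?_⟩
    rw [map_inv₀]
    exact inv_lt_one_of_one_lt₀ hx0
  have hwe : 0 < w e := zero_lt_iff.2 ((Valuation.ne_zero_iff w).2 he0)
  set d := P.natDegree with hdd
  set F1 : MvPolynomial (Option (Fin n)) K :=
    bind₁ (fun i : Fin n => C e⁻¹ * X (some i) * X none) f with hF1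
  set G : MvPolynomial (Option (Fin n)) K :=
    ∑ i ∈ Finset.range (d + 1), C (P.coeff i) * F1 ^ i * (C (g / e) * X none) ^ (d - i) with hG
  have hevF : ∀ b : Option (Fin n) → K,
      eval b F1 = eval (fun i => e⁻¹ * b (some i) * b none) f := by
    intro b
    rw [hF1, eval_sub]
    congr 2
    funext i
    simp
  have hevG : ∀ b : Option (Fin n) → K,
      w (eval b G) = (max (w (eval b F1)) (w (g / e * b none))) ^ d := by
    intro b
    rw [← val_form hP hd hc hroot (eval b F1) (g / e * b none), hG, map_sum]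
    congr 1
    refine Finset.sum_congr rfl fun i _ => ?_
    simp [hdd]
  obtain ⟨b0, hb0, hmin⟩ := hv.fintype G
  set M := max (w (eval b0 F1)) (w (g / e * b0 none)) with hM
  have hMg : w g < M := by
    rcases le_or_gt (w (b0 none)) (w e) with h | h
    · refine lt_max_of_lt_left ?_
      rw [hevF]
      refine hlow _ fun i => ?_
      rw [map_mul, map_mul, map_inv₀]
      calc (w e)⁻¹ * w (b0 (some i)) * w (b0 none) ≤ (w e)⁻¹ * 1 * w e :=
            mul_le_mul' (mul_le_mul' le_rfl (hvw _ (hb0 _))) h
        _ = 1 := by rw [mul_one, inv_mul_cancel₀ hwe.ne']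
    · refine lt_max_of_lt_right ?_
      rw [map_mul, map_div₀, div_mul_eq_mul_div, lt_div_iff₀ hwe]
      exact mul_lt_mul_of_pos_left h hwg
  obtain ⟨a, ha, haM⟩ : ∃ a : Fin n → K, (∀ i, w (a i) ≤ 1) ∧ w (eval a f) < M := by
    by_contra hcon
    push Not at hcon
    have h1 : M ≤ w g := hglb.2 (by
      rintro _ ⟨a, ha, rfl⟩
      exact hcon a ha)
    exact absurd hMg (not_lt.2 h1)
  obtain ⟨m, hm1, hm2, hm3⟩ : ∃ m : K, 1 ≤ v m ∧ w m = 1 ∧ ∀ i, v (a i) ≤ v m := by
    obtain ⟨i0, hi0⟩ := Finite.exists_max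
      (fun i : Option (Fin n) => v ((Option.elim i 1 a : K)))
    have h1 : v 1 ≤ v (Option.elim i0 1 a : K) := hi0 none
    refine ⟨Option.elim i0 1 a, by rwa [map_one] at h1, le_antisymm ?_ ?_, fun i => hi0 (some i)⟩
    · cases i0 with
      | none => simp
      | some i => exact ha i
    · have h2 := w_le_of_v_le hvw h1
      rwa [map_one] at h2
  have hm0 : m ≠ 0 := by
    rintro rfl
    rw [map_zero] at hm1
    exact absurd hm1 (not_le.2 zero_lt_one)
  set b : Option (Fin n) → K := fun i => Option.elim i (e * m) (fun i => a i / m) with hb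
  have hbv : ∀ i, v (b i) ≤ 1 := by
    intro i
    cases i with
    | none =>
      refine (v_lt_one_of_w_lt_one hvw ?_).le
      show w (e * m) < 1
      rw [map_mul, hm2, mul_one]
      exact he1
    | some i =>
      show v (a i / m) ≤ 1
      rw [map_div₀]
      exact div_le_one_of_le₀ (hm3 i) zero_le
  have h1 : eval b F1 = eval a f := by
    rw [hevF]
    congr 2
    funext i
    show e⁻¹ * (a i / m) * (e * m) = a i
    field_simp
  have h2 : w (g / e * b none) = w g := by
    have h3 : g / e * b none = g * m := by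
      show g / e * (e * m) = g * m
      field_simp
    rw [h3, map_mul, hm2, mul_one]
  have h3 : w (eval b G) < M ^ d := by
    rw [hevG, h1, h2]
    exact pow_lt_pow_left₀ (max_lt haM hMg) zero_le hd.ne'
  have h4 : w (eval b0 G) ≤ w (eval b G) := w_le_of_v_le hvw (hmin b hbv)
  rw [hevG b0] at h4
  exact absurd h3 (not_lt.2 h4)

end

end Pool.Agent.Helper95.XT
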